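import Mathlib

/-!
# Integrability of products of powers of distances to points of the complex plane

Lemma file for PROJECT SE (MP_640417_ag).  Main results:

* `SE.An.integrable_prod_rpow` : for distinct points `s j` of the plane, exponents `e j` in `(-2, 0]`
  and `n : ℝ`, `0 ≤ n`, with `∑ e j + n < -2`, every measurable function bounded by
  `C * (1 + ‖x‖) ^ n * ∏ j, ‖x - s j‖ ^ e j` is integrable on the plane;
* `SE.An.betaW`, `SE.An.integrable_betaW`, `SE.An.integral_betaW_pos` : the complex beta integral;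
* `SE.An.integrable_prod_betaW`, `SE.An.integral_prod_betaW`, `SE.An.integral_prod_betaW_pos` : products.
-/

open MeasureTheory Set Metric

namespace SE.An

/-- `‖x - s‖ ^ e` is integrable on every ball around `s` when `e > -2`. -/
theorem integrableOn_ball_rpow (s : ℂ) {e : ℝ} (he : -2 < e) (δ : ℝ) :
    IntegrableOn (fun x : ℂ => ‖x - s‖ ^ e) (ball s δ) := by
  have h0 : IntegrableOn (fun x : ℂ => ‖x‖ ^ e) (ball (0 : ℂ) δ) := by
    rw [integrableOn_fun_norm_addHaar (μ := (volume : Measure ℂ)) (f := fun y : ℝ => y ^ e)]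
    rw [Complex.finrank_real_complex]
    have h1 : IntegrableOn (fun y : ℝ => y ^ (e + 1)) (Ioo 0 δ) := by
      rcases le_or_gt δ 0 with hδ | hδ
      · rw [Ioo_eq_empty (not_lt.2 hδ)]
        exact integrableOn_empty
      · have := (intervalIntegral.intervalIntegrable_rpow' (a := 0) (b := δ)
          (r := e + 1) (by linarith))
        rw [intervalIntegrable_iff_integrableOn_Ioo_of_le hδ.le] at this
        exact this
    refine h1.congr_fun ?_ measurableSet_Ioo
    intro y hy
    have hy0 : 0 < y := hy.1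
    simp only [Nat.reduceSub, pow_one, smul_eq_mul]
    rw [Real.rpow_add hy0, Real.rpow_one, mul_comm]
  have h2 : MeasurePreserving (fun x : ℂ => x - s) volume volume :=
    measurePreserving_sub_right volume s
  have h3 := (h2.integrableOn_comp_preimage
    (MeasurableEquiv.subRight s).measurableEmbedding (f := fun x : ℂ => ‖x‖ ^ e)
    (s := ball (0 : ℂ) δ)).2 h0
  have h4 : (fun x : ℂ => x - s) ⁻¹' (ball (0 : ℂ) δ) = ball s δ := by
    ext x
    rw [mem_preimage, mem_ball_iff_norm, mem_ball_iff_norm, sub_zero]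
  rw [h4] at h3
  exact h3

/-- Away from `s`, `‖x - s‖` is comparable with `1 + ‖x‖`. -/
theorem norm_sub_ge {s x : ℂ} {δ : ℝ} (hδ : 0 < δ) (h : δ ≤ ‖x - s‖) :
    (δ / (1 + ‖s‖ + δ)) * (1 + ‖x‖) ≤ ‖x - s‖ := by
  have hs : 0 ≤ ‖s‖ := norm_nonneg s
  have hpos : 0 < 1 + ‖s‖ + δ := by positivity
  have h1 : ‖x‖ ≤ ‖x - s‖ + ‖s‖ := by
    have := norm_add_le (x - s) s
    simpa using this
  rw [div_mul_eq_mul_div, div_le_iff₀ hpos]
  nlinarith [mul_nonneg hδ.le (sub_nonneg.2 h1), mul_nonneg (sub_nonneg.2 h) hs,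
    sub_nonneg.2 h]

theorem rpow_le_of_far {s x : ℂ} {δ e : ℝ} (hδ : 0 < δ) (he : e ≤ 0) (h : δ ≤ ‖x - s‖) :
    ‖x - s‖ ^ e ≤ (δ / (1 + ‖s‖ + δ)) ^ e * (1 + ‖x‖) ^ e := by
  have hs : 0 ≤ ‖s‖ := norm_nonneg s
  have hx : 0 ≤ ‖x‖ := norm_nonneg x
  have h1 := norm_sub_ge hδ h
  rw [← Real.mul_rpow (by positivity) (by positivity)]
  exact Real.rpow_le_rpow_of_nonpos (by positivity) h1 he

/-- The general integrability lemma. -/
theorem integrable_prod_rpow {ι : Type*} [Fintype ι] (s : ι → ℂ) (hs : Function.Injective s)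
    (e : ι → ℝ) (he : ∀ j, -2 < e j) (he0 : ∀ j, e j ≤ 0) (n : ℝ) (hn : 0 ≤ n)
    (hsum : ∑ j, e j + n < -2) :
    Integrable (fun x : ℂ => (1 + ‖x‖) ^ n * ∏ j, ‖x - s j‖ ^ e j) := by
  classical
  -- a common radius
  obtain ⟨δ, hδ, hδ1, hsep⟩ : ∃ δ : ℝ, 0 < δ ∧ δ ≤ 1 ∧ ∀ i j, i ≠ j → 2 * δ ≤ ‖s i - s j‖ := by
    let T : Finset (ι × ι) := Finset.univ.filter (fun p => p.1 ≠ p.2)
    rcases T.eq_empty_or_nonempty with hT | hT
    · refine ⟨1, one_pos, le_rfl, ?_⟩
      intro i j hij
      exfalso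
      have : (i, j) ∈ T := by simp [T, hij]
      rw [hT] at this
      simp at this
    · obtain ⟨p, hp, hmin⟩ := T.exists_min_image (fun p => ‖s p.1 - s p.2‖) hT
      have hp' : p.1 ≠ p.2 := by simpa [T] using hp
      have hpos : 0 < ‖s p.1 - s p.2‖ := by
        rw [norm_pos_iff, sub_ne_zero]
        exact fun h => hp' (hs h)
      refine ⟨min 1 (‖s p.1 - s p.2‖ / 2), by positivity, min_le_left _ _, ?_⟩
      intro i j hij
      have h1 := hmin (i, j) (by simp [T, hij])
      have h2 := min_le_right 1 (‖s p.1 - s p.2‖ / 2)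
      simp only at h1
      linarith
  -- constants
  let K : ι → ℝ := fun j => (δ / (1 + ‖s j‖ + δ)) ^ e j
  have hK : ∀ j, 0 < K j := fun j => by
    have := norm_nonneg (s j)
    positivity
  let σ : ℝ := ∑ j, e j + n
  -- the majorant
  let G : ℂ → ℝ := fun x => (∏ j, K j) * (1 + ‖x‖) ^ σ
    + ∑ i, ((2 + ‖s i‖) ^ n * (∏ j ∈ Finset.univ.erase i, δ ^ e j)) *
      (ball (s i) δ).indicator (fun x => ‖x - s i‖ ^ e i) x
  have hG : Integrable G := by
    refine Integrable.add ?_ ?_
    · refine Integrable.const_mul ?_ _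
      have h1 := integrable_one_add_norm (E := ℂ) (μ := (volume : Measure ℂ)) (r := -σ)
        (by rw [Complex.finrank_real_complex]; push_cast; simp only [σ]; linarith)
      simpa using h1
    · refine integrable_finsetSum _ (fun i _ => Integrable.const_mul ?_ _)
      rw [integrable_indicator_iff measurableSet_ball]
      exact integrableOn_ball_rpow (s i) (he i) δ
  have hGn : ∀ x i, 0 ≤ ((2 + ‖s i‖) ^ n * (∏ j ∈ Finset.univ.erase i, δ ^ e j)) *
      (ball (s i) δ).indicator (fun x => ‖x - s i‖ ^ e i) x := by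
    intro x i
    have h1 : 0 ≤ (ball (s i) δ).indicator (fun x => ‖x - s i‖ ^ e i) x :=
      indicator_nonneg (fun y _ => by positivity) x
    have h2 : 0 ≤ ∏ j ∈ Finset.univ.erase i, δ ^ e j :=
      Finset.prod_nonneg (fun j _ => by positivity)
    have h3 := norm_nonneg (s i)
    positivity
  refine hG.mono' ?_ (Filter.Eventually.of_forall fun x => ?_)
  · have hm : Measurable (fun x : ℂ => (1 + ‖x‖) ^ n * ∏ j, ‖x - s j‖ ^ e j) := by
      refine Measurable.mul ?_ ?_
      · exact (measurable_const.add measurable_norm).pow_const n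
      · refine Finset.measurable_prod _ (fun j _ => ?_)
        exact ((measurable_id.sub_const (s j)).norm).pow_const (e j)
    exact hm.aestronglyMeasurable
  · have hx0 : 0 ≤ ‖x‖ := norm_nonneg x
    have hnn : 0 ≤ (1 + ‖x‖) ^ n * ∏ j, ‖x - s j‖ ^ e j := by
      have : 0 ≤ ∏ j, ‖x - s j‖ ^ e j := Finset.prod_nonneg (fun j _ => by positivity)
      positivity
    rw [Real.norm_of_nonneg hnn]
    by_cases hfar : ∀ j, δ ≤ ‖x - s j‖
    · -- far from all points
      have h1 : ∏ j, ‖x - s j‖ ^ e j ≤ ∏ j, (K j * (1 + ‖x‖) ^ e j) :=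
        Finset.prod_le_prod (fun j _ => by positivity)
          (fun j _ => rpow_le_of_far hδ (he0 j) (hfar j))
      have h2 : (1 + ‖x‖) ^ n * ∏ j, (K j * (1 + ‖x‖) ^ e j)
          = (∏ j, K j) * (1 + ‖x‖) ^ σ := by
        rw [Finset.prod_mul_distrib, ← Real.rpow_sum_of_pos (by positivity)]
        simp only [σ]
        rw [Real.rpow_add (by positivity)]
        ring
      calc (1 + ‖x‖) ^ n * ∏ j, ‖x - s j‖ ^ e j
          ≤ (1 + ‖x‖) ^ n * ∏ j, (K j * (1 + ‖x‖) ^ e j) := by gcongr
        _ = (∏ j, K j) * (1 + ‖x‖) ^ σ := h2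
        _ ≤ G x := by
            simp only [G]
            have := Finset.sum_nonneg (fun i (_ : i ∈ Finset.univ) => hGn x i)
            linarith
    · push Not at hfar
      obtain ⟨i, hi⟩ := hfar
      have hothers : ∀ j ∈ Finset.univ.erase i, δ ≤ ‖x - s j‖ := by
        intro j hj
        have hji : j ≠ i := (Finset.mem_erase.1 hj).1
        have h1 := hsep j i hji
        have h2 : ‖s j - s i‖ ≤ ‖x - s j‖ + ‖x - s i‖ := by
          have := norm_sub_le (x - s i) (x - s j)
          have h3 : (x - s i) - (x - s j) = s j - s i := by ring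
          rw [h3] at this
          linarith
        linarith
      have hxn : 1 + ‖x‖ ≤ 2 + ‖s i‖ := by
        have := norm_add_le (x - s i) (s i)
        simp only [sub_add_cancel] at this
        linarith
      have hind : (ball (s i) δ).indicator (fun x => ‖x - s i‖ ^ e i) x = ‖x - s i‖ ^ e i := by
        rw [indicator_of_mem]
        rw [mem_ball_iff_norm]
        exact hi
      have h1 : ∏ j, ‖x - s j‖ ^ e j
          ≤ ‖x - s i‖ ^ e i * ∏ j ∈ Finset.univ.erase i, δ ^ e j := by
        rw [← Finset.mul_prod_erase Finset.univ _ (Finset.mem_univ i)]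
        refine mul_le_mul_of_nonneg_left ?_ (by positivity)
        refine Finset.prod_le_prod (fun j _ => by positivity) (fun j hj => ?_)
        exact Real.rpow_le_rpow_of_nonpos hδ (hothers j hj) (he0 j)
      calc (1 + ‖x‖) ^ n * ∏ j, ‖x - s j‖ ^ e j
          ≤ (2 + ‖s i‖) ^ n * (‖x - s i‖ ^ e i * ∏ j ∈ Finset.univ.erase i, δ ^ e j) := by
            refine mul_le_mul (Real.rpow_le_rpow (by positivity) hxn hn) h1
              (Finset.prod_nonneg (fun j _ => by positivity)) ?_
            have := norm_nonneg (s i)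
            positivity
        _ = ((2 + ‖s i‖) ^ n * (∏ j ∈ Finset.univ.erase i, δ ^ e j)) *
              (ball (s i) δ).indicator (fun x => ‖x - s i‖ ^ e i) x := by
            rw [hind]; ring
        _ ≤ ∑ i, ((2 + ‖s i‖) ^ n * (∏ j ∈ Finset.univ.erase i, δ ^ e j)) *
              (ball (s i) δ).indicator (fun x => ‖x - s i‖ ^ e i) x :=
            Finset.single_le_sum (f := fun i => ((2 + ‖s i‖) ^ n *
              (∏ j ∈ Finset.univ.erase i, δ ^ e j)) *
              (ball (s i) δ).indicator (fun x => ‖x - s i‖ ^ e i) x)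
              (fun i _ => hGn x i) (Finset.mem_univ i)
        _ ≤ G x := by
            simp only [G]
            have h5 : 0 ≤ ∏ j, K j := Finset.prod_nonneg (fun j _ => (hK j).le)
            have h6 : 0 ≤ (∏ j, K j) * (1 + ‖x‖) ^ σ := by positivity
            linarith

/-- Dominated version. -/
theorem integrable_of_le_prod_rpow {ι : Type*} [Fintype ι] (s : ι → ℂ)
    (hs : Function.Injective s) (e : ι → ℝ) (he : ∀ j, -2 < e j) (he0 : ∀ j, e j ≤ 0)
    (n : ℝ) (hn : 0 ≤ n) (hsum : ∑ j, e j + n < -2) {F : Type*} [NormedAddCommGroup F]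
    {f : ℂ → F} (hf : AEStronglyMeasurable f) (C : ℝ)
    (hle : ∀ᵐ x, ‖f x‖ ≤ C * ((1 + ‖x‖) ^ n * ∏ j, ‖x - s j‖ ^ e j)) :
    Integrable f :=
  ((integrable_prod_rpow s hs e he he0 n hn hsum).const_mul C).mono' hf hle

/-- The weight of the complex beta integral. -/
noncomputable def betaW (a b : ℝ) (t : ℂ) : ℝ := ‖t‖ ^ (2 * a - 2) * ‖1 - t‖ ^ (2 * b - 2)

theorem betaW_nonneg (a b : ℝ) (t : ℂ) : 0 ≤ betaW a b t := by
  unfold betaW
  positivity

theorem measurable_betaW (a b : ℝ) : Measurable (betaW a b) := by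
  unfold betaW
  exact (measurable_norm.pow_const _).mul (((measurable_const.sub measurable_id).norm).pow_const _)

theorem integrable_betaW {a b : ℝ} (ha : 0 < a) (hb : 0 < b) (hab : a + b < 1) :
    Integrable (betaW a b) := by
  have h := integrable_prod_rpow (ι := Fin 2) ![0, 1]
    (by
      intro i j hij
      fin_cases i <;> fin_cases j <;> simp_all)
    ![2 * a - 2, 2 * b - 2]
    (by intro j; fin_cases j <;> simp <;> linarith)
    (by intro j; fin_cases j <;> simp <;> linarith)
    0 le_rfl (by simp [Fin.sum_univ_two]; linarith)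
  refine h.congr (Filter.Eventually.of_forall fun x => ?_)
  simp only [Real.rpow_zero, one_mul, Fin.prod_univ_two, Matrix.cons_val_zero,
    Matrix.cons_val_one, sub_zero, betaW]
  rw [norm_sub_rev x 1]

theorem betaW_pos {a b : ℝ} {t : ℂ} (h0 : t ≠ 0) (h1 : t ≠ 1) : 0 < betaW a b t := by
  have h2 : 0 < ‖t‖ := norm_pos_iff.2 h0
  have h3 : 0 < ‖1 - t‖ := norm_pos_iff.2 (sub_ne_zero.2 (Ne.symm h1))
  unfold betaW
  positivity

theorem integral_betaW_pos {a b : ℝ} (ha : 0 < a) (hb : 0 < b) (hab : a + b < 1) :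
    0 < ∫ t, betaW a b t := by
  rw [integral_pos_iff_support_of_nonneg (betaW_nonneg a b) (integrable_betaW ha hb hab)]
  have hsub : ball (3 : ℂ) 1 ⊆ Function.support (betaW a b) := by
    intro t ht
    have ht' : ‖t - 3‖ < 1 := mem_ball_iff_norm.1 ht
    refine (betaW_pos ?_ ?_).ne'
    · rintro rfl
      norm_num at ht'
    · rintro rfl
      norm_num at ht'
  exact lt_of_lt_of_le (measure_ball_pos volume _ one_pos) (measure_mono hsub)

section product

variable {ι : Type*} [Fintype ι]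

theorem integrable_prod_betaW {a b : ι → ℝ} (ha : ∀ i, 0 < a i) (hb : ∀ i, 0 < b i)
    (hab : ∀ i, a i + b i < 1) :
    Integrable (fun t : ι → ℂ => ∏ i, betaW (a i) (b i) (t i)) :=
  Integrable.fintype_prod (μ := fun _ : ι => (volume : Measure ℂ))
    (fun i => integrable_betaW (ha i) (hb i) (hab i))

theorem integral_prod_betaW (a b : ι → ℝ) :
    ∫ t : ι → ℂ, ∏ i, betaW (a i) (b i) (t i) = ∏ i, ∫ t : ℂ, betaW (a i) (b i) t :=
  integral_fintype_prod_volume_eq_prod (fun i => betaW (a i) (b i))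

theorem integral_prod_betaW_pos {a b : ι → ℝ} (ha : ∀ i, 0 < a i) (hb : ∀ i, 0 < b i)
    (hab : ∀ i, a i + b i < 1) :
    0 < ∫ t : ι → ℂ, ∏ i, betaW (a i) (b i) (t i) := by
  rw [integral_prod_betaW]
  exact Finset.prod_pos (fun i _ => integral_betaW_pos (ha i) (hb i) (hab i))

end product

end SE.An
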